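import Pool.Agent.Helper63.KBL.Loc
import Pool.Agent.Helper84.Tet.Core
/-!
# The determinant of a `K_Q`-packing near the optimal double lattice packing of the tetrahedron
-/
set_option autoImplicit false
namespace Pool.Agent.Helper63.KBL
open Pool.Agent.Helper58.KB
open Pool.Agent.Helper84.Dbl (d2 tau_ge)

theorem outD_of_outDK {Q x y z : ℝ} (hQ : 0 < Q) (h : OutDK Q x y z) :
    2 ≤ |x| ∨ 2 ≤ |y| ∨ 2 ≤ |z| ∨ 4 ≤ |x| + |y| + |z| := by
  by_contra hn
  push Not at hn
  obtain ⟨h0, h1, h2, h3⟩ := hn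
  have k0 := mul_lt_mul_of_pos_left h3 hQ
  rcases h with h | h | h | h | h | h <;> linarith

/-- The admissibility conditions near the optimum. -/
theorem adm_ineq {Q a b c x u y v z w : ℝ} (hQ : 0 < Q) (h : Box a b c x u y v z w)
    (adm : ∀ i j k : ℤ, ¬ (i = 0 ∧ j = 0 ∧ k = 0) →
      OutDK Q (i * (2 + a) + j * (-u) + k * (-w)) (i * (-x) + j * (2 + b) + k * (-v))
        (i * (-z) + j * (-y) + k * (2 + c))) :
    0 ≤ a ∧ 0 ≤ b ∧ 0 ≤ c ∧ 0 ≤ b + c + u - y - v + w ∧
      0 ≤ a + b + c - x - u - y - v - z - w + 2 ∧ (0 ≤ a + c + x + v - z - w ∨ 0 ≤ c - z) := by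
  have d100 := outD_of_outDK hQ (adm 1 0 0 (by norm_num))
  have d010 := outD_of_outDK hQ (adm 0 1 0 (by norm_num))
  have d001 := outD_of_outDK hQ (adm 0 0 1 (by norm_num))
  have d011 := outD_of_outDK hQ (adm 0 1 1 (by norm_num))
  have d101 := outD_of_outDK hQ (adm 1 0 1 (by norm_num))
  have d111 := outD_of_outDK hQ (adm 1 1 1 (by norm_num))
  obtain ⟨a1, a2, b1, b2, c1, c2, z1, z2, x1, x2, u1, u2, v1, v2, y1, y2, w1, w2⟩ := h
  simp only [Int.cast_one, Int.cast_zero, one_mul, zero_mul, add_zero, zero_add] at d100 d010 d001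
  simp only [Int.cast_one, Int.cast_zero, one_mul, zero_mul, add_zero, zero_add] at d011 d101 d111
  have hz : |-z| ≤ 11/10000 := by rw [abs_neg, abs_le]; constructor <;> linarith
  refine ⟨?_, ?_, ?_, ?_, ?_, ?_⟩
  · rw [abs_of_pos (show 0 < 2 + a by linarith), abs_of_neg (show -x < 0 by linarith)] at d100
    rcases d100 with d | d | d | d <;> linarith
  · rw [abs_of_neg (show -u < 0 by linarith), abs_of_pos (show 0 < 2 + b by linarith),
      abs_of_neg (show -y < 0 by linarith)] at d010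
    rcases d010 with d | d | d | d <;> linarith
  · rw [abs_of_neg (show -w < 0 by linarith), abs_of_neg (show -v < 0 by linarith),
      abs_of_pos (show 0 < 2 + c by linarith)] at d001
    rcases d001 with d | d | d | d <;> linarith
  · rw [abs_of_neg (show -u + -w < 0 by linarith), abs_of_pos (show 0 < 2 + b + -v by linarith),
      abs_of_pos (show 0 < -y + (2 + c) by linarith)] at d011
    rcases d011 with d | d | d | d <;> linarith
  · rw [abs_of_pos (show 0 < 2 + a + -u + -w by linarith),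
      abs_of_pos (show 0 < -x + (2 + b) + -v by linarith),
      abs_of_pos (show 0 < -z + -y + (2 + c) by linarith)] at d111
    rcases d111 with d | d | d | d <;> linarith
  · rw [abs_of_pos (show 0 < 2 + a + -w by linarith),
      abs_of_neg (show -x + -v < 0 by linarith),
      abs_of_pos (show 0 < -z + (2 + c) by linarith)] at d101
    rcases d101 with d | d | d | d
    · exfalso; linarith
    · exfalso; linarith
    · right; linarith
    · left; linarith

/-- **The volume estimate near the optimum.** -/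
theorem std_box {Q a b c x u y v z w : ℝ} (hQ : 4000 ≤ Q) (h : Box a b c x u y v z w)
    (adm : ∀ i j k : ℤ, ¬ (i = 0 ∧ j = 0 ∧ k = 0) →
      OutDK Q (i * (2 + a) + j * (-u) + k * (-w)) (i * (-x) + j * (2 + b) + k * (-v))
        (i * (-z) + j * (-y) + k * (2 + c)))
    (h0 : ∃ p q r : ℝ, InK Q (2 * Q + 2) p q r ∧ 2 ≤ -p - q - r ∧
      OutAll Q p q r (2 + a) (-x) (-z) (-u) (2 + b) (-y) (-w) (-v) (2 + c)) :
    Q * d2 + 53/10 ≤ Q * dA a b c x u y v z w := by
  have hQ0 : 0 < Q := by linarith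
  obtain ⟨p, q, r, hin, hn, hout⟩ := h0
  obtain ⟨e1, e2⟩ := hole_ineq hQ h hin hn hout
  obtain ⟨ha, hb, hc, g23, gv, hg⟩ := adm_ineq hQ0 h adm
  have hk : 0 < a + 2 * b + c - x - v - z + w := by
    by_contra hk
    push Not at hk
    nlinarith
  rcases hg with hg | hg
  · have t := mul_le_mul_of_nonneg_left (loc13 h ha hb hc g23 gv hk.le hg) hQ0.le
    linarith
  · have t := mul_le_mul_of_nonneg_left (locz h ha hb hc g23 gv hk.le hg) hQ0.le
    linarith

/-- The matrices near the standard optimal one. -/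
structure Std (m11 m12 m13 m21 m22 m23 m31 m32 m33 : ℝ) : Prop where
  l11 : 2 - 11/10000 ≤ m11
  u11 : m11 ≤ 2 + 11/10000
  l12 : -(2339/10000) - 11/10000 ≤ m12
  u12 : m12 ≤ -(2339/10000) + 11/10000
  l13 : -(11/10000) ≤ m13
  u13 : m13 ≤ 11/10000
  l21 : -(3246/10000) - 11/10000 ≤ m21
  u21 : m21 ≤ -(3246/10000) + 11/10000
  l22 : 2 - 11/10000 ≤ m22
  u22 : m22 ≤ 2 + 11/10000
  l23 : -(5585/10000) - 11/10000 ≤ m23
  u23 : m23 ≤ -(5585/10000) + 11/10000
  l31 : -(5585/10000) - 11/10000 ≤ m31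
  u31 : m31 ≤ -(5585/10000) + 11/10000
  l32 : -(3246/10000) - 11/10000 ≤ m32
  u32 : m32 ≤ -(3246/10000) + 11/10000
  l33 : 2 - 11/10000 ≤ m33
  u33 : m33 ≤ 2 + 11/10000

/-- **The volume estimate near the optimum**, matrix form. -/
theorem std {Q : ℝ} (hQ : 4000 ≤ Q) {m11 m12 m13 m21 m22 m23 m31 m32 m33 : ℝ}
    (s : Std m11 m12 m13 m21 m22 m23 m31 m32 m33)
    (adm : ∀ i j k : ℤ, ¬ (i = 0 ∧ j = 0 ∧ k = 0) →
      OutDK Q (i * m11 + j * m21 + k * m31) (i * m12 + j * m22 + k * m32)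
        (i * m13 + j * m23 + k * m33))
    (h0 : ∃ p q r : ℝ, InK Q (2 * Q + 2) p q r ∧ 2 ≤ -p - q - r ∧
      OutAll Q p q r m11 m12 m13 m21 m22 m23 m31 m32 m33) :
    d2 + 53/10 / Q ≤ Pool.Agent.Helper84.Tet.det3 m11 m12 m13 m21 m22 m23 m31 m32 m33 := by
  have hQ0 : 0 < Q := by linarith
  obtain ⟨l11, u11, l12, u12, l13, u13, l21, u21, l22, u22, l23, u23, l31, u31, l32, u32, l33,
    u33⟩ := s
  have hb : Box (m11 - 2) (m22 - 2) (m33 - 2) (-m12) (-m21) (-m23) (-m32) (-m13) (-m31) := by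
    constructor <;> linarith
  have key := std_box hQ hb (by
    intro i j k hn
    have t := adm i j k hn
    convert t using 1 <;> ring) (by
    obtain ⟨p, q, r, h1, h2, h3⟩ := h0
    refine ⟨p, q, r, h1, h2, fun i j k => ?_⟩
    have t := h3 i j k
    convert t using 1 <;> ring)
  have e : dA (m11 - 2) (m22 - 2) (m33 - 2) (-m12) (-m21) (-m23) (-m32) (-m13) (-m31) =
      Pool.Agent.Helper84.Tet.det3 m11 m12 m13 m21 m22 m23 m31 m32 m33 := by
    unfold dA Pool.Agent.Helper84.Tet.det3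
    ring
  rw [e] at key
  have h2 : Q * (d2 + 53/10 / Q) = Q * d2 + 53/10 := by
    field_simp
  rw [← h2] at key
  exact le_of_mul_le_mul_left key hQ0

end Pool.Agent.Helper63.KBL
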