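import Pool.Agent.Helper63.KBL.Near
import Pool.Agent.Helper84.Dbl.Base
/-!
# The determinant near the optimal double lattice packing of the tetrahedron
-/
set_option autoImplicit false
namespace Pool.Agent.Helper63.KBL
open Pool.Agent.Helper58.KB
open Pool.Agent.Helper84.Dbl (d2 tau_ge)

/-- The determinant with rows `(2+a,-x,-z)`, `(-u,2+b,-y)`, `(-w,-v,2+c)`. -/
def dA (a b c x u y v z w : ℝ) : ℝ :=
  (2+a)*(2+b)*(2+c) - x*y*w - z*u*v - (2+a)*(y*v) - (2+b)*(z*w) - (2+c)*(x*u)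

/-- Bounds for the partial difference quotients of the determinant in the box. -/
theorem grad_bounds {a b c x u y v z w xs ys ws : ℝ} (h : Box a b c x u y v z w)
    (hx : xs = (2 - 2 * (u + v)) / 3) (hy : ys = u + xs) (hw : ws = xs + v) :
    (3817/1000 ≤ 4 - ys * v ∧ 4 - ys * v ≤ 3820/1000) ∧
    (39978/10000 ≤ 2 * (2 + a) ∧ 2 * (2 + a) ≤ 40022/10000) ∧
    (3918/1000 ≤ (2 + a) * (2 + b) - xs * u ∧ (2 + a) * (2 + b) - xs * u ≤ 3930/1000) ∧
    (-(9650/10000) ≤ -(ys * ws) - (2 + c) * u ∧ -(ys * ws) - (2 + c) * u ≤ -(9572/10000)) ∧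
    (-(7833/10000) ≤ -(x * ws) - (2 + a) * v ∧ -(x * ws) - (2 + a) * v ≤ -(7763/10000)) ∧
    (-(1226/1000) ≤ -(u * v) - (2 + b) * ws ∧ -(u * v) - (2 + b) * ws ≤ -(12186/10000)) ∧
    (-(1338/10000) ≤ -(x * y) - (2 + b) * z ∧ -(x * y) - (2 + b) * z ≤ -(1275/10000)) := by
  obtain ⟨a1, a2, b1, b2, c1, c2, z1, z2, x1, x2, u1, u2, v1, v2, y1, y2, w1, w2⟩ := h
  have xs1 : 2323/10000 ≤ xs := by rw [hx]; linarith
  have xs2 : xs ≤ 2354/10000 := by rw [hx]; linarith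
  have ys1 : 5573/10000 ≤ ys := by rw [hy, hx]; linarith
  have ys2 : ys ≤ 5596/10000 := by rw [hy, hx]; linarith
  have ws1 : 5573/10000 ≤ ws := by rw [hw, hx]; linarith
  have ws2 : ws ≤ 5596/10000 := by rw [hw, hx]; linarith
  have mul_lo : ∀ {s t s0 t0 : ℝ}, 0 ≤ s0 → 0 ≤ t0 → s0 ≤ s → t0 ≤ t → s0 * t0 ≤ s * t :=
    fun h1 h2 h3 h4 => mul_le_mul h3 h4 h2 (h1.trans h3)
  have p1 := mul_lo (by norm_num) (by norm_num) ys1 v1
  have p1' : ys * v ≤ 5596/10000 * (3257/10000) := mul_lo (by linarith) (by linarith) ys2 v2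
  have p2 : (19989/10000) * (19989/10000) ≤ (2 + a) * (2 + b) :=
    mul_lo (by norm_num) (by norm_num) (by linarith) (by linarith)
  have p2' : (2 + a) * (2 + b) ≤ (20011/10000) * (20011/10000) :=
    mul_lo (by linarith) (by linarith) (by linarith) (by linarith)
  have p3 := mul_lo (by norm_num) (by norm_num) xs1 u1
  have p3' : xs * u ≤ 2354/10000 * (3257/10000) := mul_lo (by linarith) (by linarith) xs2 u2
  have p4 := mul_lo (by norm_num) (by norm_num) ys1 ws1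
  have p4' : ys * ws ≤ 5596/10000 * (5596/10000) := mul_lo (by linarith) (by linarith) ys2 ws2
  have p5 : (19989/10000) * (3235/10000) ≤ (2 + c) * u :=
    mul_lo (by norm_num) (by norm_num) (by linarith) u1
  have p5' : (2 + c) * u ≤ (20011/10000) * (3257/10000) :=
    mul_lo (by linarith) (by linarith) (by linarith) u2
  have p6 := mul_lo (by norm_num) (by norm_num) x1 ws1
  have p6' : x * ws ≤ 2350/10000 * (5596/10000) := mul_lo (by linarith) (by linarith) x2 ws2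
  have p7 : (19989/10000) * (3235/10000) ≤ (2 + a) * v :=
    mul_lo (by norm_num) (by norm_num) (by linarith) v1
  have p7' : (2 + a) * v ≤ (20011/10000) * (3257/10000) :=
    mul_lo (by linarith) (by linarith) (by linarith) v2
  have p8 := mul_lo (by norm_num) (by norm_num) u1 v1
  have p8' : u * v ≤ 3257/10000 * (3257/10000) := mul_lo (by linarith) (by linarith) u2 v2
  have p9 : (19989/10000) * (5573/10000) ≤ (2 + b) * ws :=
    mul_lo (by norm_num) (by norm_num) (by linarith) ws1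
  have p9' : (2 + b) * ws ≤ (20011/10000) * (5596/10000) :=
    mul_lo (by linarith) (by linarith) (by linarith) ws2
  have p10 := mul_lo (by norm_num) (by norm_num) x1 y1
  have p10' : x * y ≤ 2350/10000 * (5596/10000) := mul_lo (by linarith) (by linarith) x2 y2
  have p11 : -(2202/1000000) ≤ (2 + b) * z := by nlinarith
  have p11' : (2 + b) * z ≤ 2202/1000000 := by nlinarith
  refine ⟨⟨?_, ?_⟩, ⟨?_, ?_⟩, ⟨?_, ?_⟩, ⟨?_, ?_⟩, ⟨?_, ?_⟩, ⟨?_, ?_⟩, ⟨?_, ?_⟩⟩ <;>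
    norm_num at * <;> linarith

/-- The telescoping formula for the determinant. -/
theorem dA_eq {a b c x u y v z w xs ys ws : ℝ} (hx : xs = (2 - 2 * (u + v)) / 3)
    (hy : ys = u + xs) (hw : ws = xs + v) :
    dA a b c x u y v z w = (208 - 48 * ((u + v) / 2) + 72 * ((u + v) / 2 * ((u + v) / 2)) +
        4 * ((u + v) / 2 * ((u + v) / 2) * ((u + v) / 2))) / 27 + (2 + xs) * ((u - v) / 2) ^ 2 +
      (4 - ys * v) * a + (2 * (2 + a)) * b + ((2 + a) * (2 + b) - xs * u) * c +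
      (-(ys * ws) - (2 + c) * u) * (x - xs) + (-(x * ws) - (2 + a) * v) * (y - ys) +
      (-(u * v) - (2 + b) * ws) * z + (-(x * y) - (2 + b) * z) * (w - ws) := by
  subst hy hw hx
  unfold dA
  ring

theorem loc13 {a b c x u y v z w : ℝ} (h : Box a b c x u y v z w) (ha : 0 ≤ a) (hb : 0 ≤ b)
    (hc : 0 ≤ c) (g23 : 0 ≤ b + c + u - y - v + w)
    (gv : 0 ≤ a + b + c - x - u - y - v - z - w + 2)
    (hk : 0 ≤ a + 2 * b + c - x - v - z + w) (hg : 0 ≤ a + c + x + v - z - w) :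
    d2 + 225/100 * (a + b) + 46/100 * (a + 2 * b + c - x - v - z + w) ≤ dA a b c x u y v z w := by
  obtain ⟨xs, hxs⟩ : ∃ xs, xs = (2 - 2 * (u + v)) / 3 := ⟨_, rfl⟩
  obtain ⟨ys, hys⟩ : ∃ ys, ys = u + xs := ⟨_, rfl⟩
  obtain ⟨ws, hws⟩ : ∃ ws, ws = xs + v := ⟨_, rfl⟩
  obtain ⟨⟨Ga1, Ga2⟩, ⟨Gb1, Gb2⟩, ⟨Gc1, Gc2⟩, ⟨Gx1, Gx2⟩, ⟨Gy1, Gy2⟩, ⟨Gz1, Gz2⟩, ⟨Gw1, Gw2⟩⟩ :=
    grad_bounds h hxs hys hws
  rw [dA_eq hxs hys hws]
  have ht := tau_ge ((u + v) / 2) (by linarith [h.u1, h.v1])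
  have hs : 0 ≤ (2 + xs) * ((u - v) / 2) ^ 2 := by
    have : 0 ≤ 2 + xs := by rw [hxs]; linarith [h.u2, h.v2]
    positivity
  generalize 4 - ys * v = Ga at *
  generalize 2 * (2 + a) = Gb at *
  generalize (2 + a) * (2 + b) - xs * u = Gc at *
  generalize -(ys * ws) - (2 + c) * u = Gx at *
  generalize -(x * ws) - (2 + a) * v = Gy at *
  generalize -(u * v) - (2 + b) * ws = Gz at *
  generalize -(x * y) - (2 + b) * z = Gw at *
  have e1 := mul_nonneg ha (show 0 ≤ Ga + Gz - 225/100 by linarith)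
  have e2 := mul_nonneg hb (show 0 ≤ Gb + (Gx + Gy + Gw) / 3 + Gz - Gw - 225/100 by linarith)
  have e3 := mul_nonneg hc (show 0 ≤ Gc - (Gx + Gy + Gw) / 3 + Gy + Gz by linarith)
  have e4 := mul_nonneg hg (show 0 ≤ (Gx + Gy + Gw) / 2 - Gy / 2 - Gz / 2 - Gw / 2 by linarith)
  have e5 := mul_nonneg g23 (show 0 ≤ (Gx + Gy + Gw) / 3 - Gy by linarith)
  have e6 := mul_nonneg gv (show 0 ≤ - (Gx + Gy + Gw) / 3 by linarith)
  have e7 := mul_nonneg hk
    (show 0 ≤ - (Gx + Gy + Gw) / 6 + Gy / 2 - Gz / 2 + Gw / 2 - 46/100 by linarith)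
  have dx : x - xs = (b - c - (a + 2 * b + c - x - v - z + w) / 2 +
      3 / 2 * (a + c + x + v - z - w) + (b + c + u - y - v + w) -
      (a + b + c - x - u - y - v - z - w + 2)) / 3 := by rw [hxs]; ring
  have dy : y - ys = c + (x - xs) + ((a + 2 * b + c - x - v - z + w) - (a + c + x + v - z - w)) / 2
      - (b + c + u - y - v + w) := by rw [hys]; ring
  have dw : w - ws = (x - xs) - b +
      ((a + 2 * b + c - x - v - z + w) - (a + c + x + v - z - w)) / 2 := by rw [hws]; ring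
  rw [dy, dw, dx]
  have dz : z = a + b + c - ((a + c + x + v - z - w) + (a + 2 * b + c - x - v - z + w)) / 2 := by
    ring
  have key : Gz * z = Gz * (a + b + c - ((a + c + x + v - z - w) +
      (a + 2 * b + c - x - v - z + w)) / 2) := by rw [← dz]
  rw [key]
  generalize (208 - 48 * ((u + v) / 2) + 72 * ((u + v) / 2 * ((u + v) / 2)) +
        4 * ((u + v) / 2 * ((u + v) / 2) * ((u + v) / 2))) / 27 = T at *
  generalize (2 + xs) * ((u - v) / 2) ^ 2 = S at *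
  generalize a + 2 * b + c - x - v - z + w = K at *
  generalize a + c + x + v - z - w = g1 at *
  generalize b + c + u - y - v + w = g2 at *
  generalize a + b + c - x - u - y - v - z - w + 2 = g3 at *
  nlinarith [e1, e2, e3, e4, e5, e6, e7, ht, hs]

theorem locz {a b c x u y v z w : ℝ} (h : Box a b c x u y v z w) (ha : 0 ≤ a) (hb : 0 ≤ b)
    (hc : 0 ≤ c) (g23 : 0 ≤ b + c + u - y - v + w)
    (gv : 0 ≤ a + b + c - x - u - y - v - z - w + 2)
    (hk : 0 ≤ a + 2 * b + c - x - v - z + w) (hg : 0 ≤ c - z) :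
    d2 + 250/100 * (a + b) + 32/100 * (a + 2 * b + c - x - v - z + w) ≤ dA a b c x u y v z w := by
  obtain ⟨xs, hxs⟩ : ∃ xs, xs = (2 - 2 * (u + v)) / 3 := ⟨_, rfl⟩
  obtain ⟨ys, hys⟩ : ∃ ys, ys = u + xs := ⟨_, rfl⟩
  obtain ⟨ws, hws⟩ : ∃ ws, ws = xs + v := ⟨_, rfl⟩
  obtain ⟨⟨Ga1, Ga2⟩, ⟨Gb1, Gb2⟩, ⟨Gc1, Gc2⟩, ⟨Gx1, Gx2⟩, ⟨Gy1, Gy2⟩, ⟨Gz1, Gz2⟩, ⟨Gw1, Gw2⟩⟩ :=
    grad_bounds h hxs hys hws
  rw [dA_eq hxs hys hws]
  have ht := tau_ge ((u + v) / 2) (by linarith [h.u1, h.v1])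
  have hs : 0 ≤ (2 + xs) * ((u - v) / 2) ^ 2 := by
    have : 0 ≤ 2 + xs := by rw [hxs]; linarith [h.u2, h.v2]
    positivity
  generalize 4 - ys * v = Ga at *
  generalize 2 * (2 + a) = Gb at *
  generalize (2 + a) * (2 + b) - xs * u = Gc at *
  generalize -(ys * ws) - (2 + c) * u = Gx at *
  generalize -(x * ws) - (2 + a) * v = Gy at *
  generalize -(u * v) - (2 + b) * ws = Gz at *
  generalize -(x * y) - (2 + b) * z = Gw at *
  have e1 := mul_nonneg ha (show 0 ≤ Ga + (Gx + Gy + Gw) - Gy - Gw - 250/100 by linarith)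
  have e2 := mul_nonneg hb
    (show 0 ≤ Gb + 4 / 3 * (Gx + Gy + Gw) - Gy - 2 * Gw - 250/100 by linarith)
  have e3 := mul_nonneg hc (show 0 ≤ Gc - (Gx + Gy + Gw) / 3 + Gy + Gz by linarith)
  have e4 := mul_nonneg hg (show 0 ≤ (Gx + Gy + Gw) - Gy - Gz - Gw by linarith)
  have e5 := mul_nonneg g23 (show 0 ≤ (Gx + Gy + Gw) / 3 - Gy by linarith)
  have e6 := mul_nonneg gv (show 0 ≤ - (Gx + Gy + Gw) / 3 by linarith)
  have e7 := mul_nonneg hk
    (show 0 ≤ - 2 / 3 * (Gx + Gy + Gw) + Gy + Gw - 32/100 by linarith)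
  have dx : x - xs = (3 * a + 4 * b - c - 2 * (a + 2 * b + c - x - v - z + w) + 3 * (c - z) +
      (b + c + u - y - v + w) - (a + b + c - x - u - y - v - z - w + 2)) / 3 := by rw [hxs]; ring
  have dy : y - ys = -a - b + c + (a + 2 * b + c - x - v - z + w) - (c - z)
      - (b + c + u - y - v + w) + (x - xs) := by rw [hys]; ring
  have dw : w - ws = (a + 2 * b + c - x - v - z + w) - a - 2 * b - (c - z) + (x - xs) := by
    rw [hws]; ring
  rw [dy, dw, dx]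
  have key : Gz * z = Gz * (c - (c - z)) := by ring
  rw [key]
  generalize (208 - 48 * ((u + v) / 2) + 72 * ((u + v) / 2 * ((u + v) / 2)) +
        4 * ((u + v) / 2 * ((u + v) / 2) * ((u + v) / 2))) / 27 = T at *
  generalize (2 + xs) * ((u - v) / 2) ^ 2 = S at *
  generalize a + 2 * b + c - x - v - z + w = K at *
  generalize c - z = g1 at *
  generalize b + c + u - y - v + w = g2 at *
  generalize a + b + c - x - u - y - v - z - w + 2 = g3 at *
  nlinarith [e1, e2, e3, e4, e5, e6, e7, ht, hs]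

end Pool.Agent.Helper63.KBL
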