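import Pool.Agent.Helper58.KB.Defs
/-!
# Holes of `K_Q` near the optimal double lattice packing of the tetrahedron

If the rows `m1 = (2+a,-x,-z)`, `m2 = (-u,2+b,-y)`, `m3 = (-w,-v,2+c)` are close to the optimal
ones, then a point of `2 K_Q` on its facet of type `(-1,-1,-1)` whose coset does not meet the
interior of `2 K_Q` lies near `(-1.117,-0.883,0)`; this gives lower bounds for the two forms
`a + 2 b + c - x - v - z + w` and `a + b`.
-/
set_option autoImplicit false
namespace Pool.Agent.Helper63.KBL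
open Pool.Agent.Helper58.KB

/-- The box around the optimal rows (no sign condition on `a, b, c, z`). -/
structure Box (a b c x u y v z w : ℝ) : Prop where
  a1 : -(11/10000) ≤ a
  a2 : a ≤ 11/10000
  b1 : -(11/10000) ≤ b
  b2 : b ≤ 11/10000
  c1 : -(11/10000) ≤ c
  c2 : c ≤ 11/10000
  z1 : -(11/10000) ≤ z
  z2 : z ≤ 11/10000
  x1 : 2328/10000 ≤ x
  x2 : x ≤ 2350/10000
  u1 : 3235/10000 ≤ u
  u2 : u ≤ 3257/10000
  v1 : 3235/10000 ≤ v
  v2 : v ≤ 3257/10000
  y1 : 5574/10000 ≤ y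
  y2 : y ≤ 5596/10000
  w1 : 5574/10000 ≤ w
  w2 : w ≤ 5596/10000

/-- A point outside the interior of `2 K_Q` is outside the interior of `2 T`. -/
theorem outT_of_outTK {Q x y z : ℝ} (hQ : 0 < Q) (h : OutTK Q x y z) :
    2 ≤ -x - y - z ∨ 2 ≤ -x + y + z ∨ 2 ≤ x - y + z ∨ 2 ≤ x + y - z := by
  by_contra hn
  push Not at hn
  obtain ⟨h0, h1, h2, h3⟩ := hn
  have x1 : -x < 2 := by linarith
  have x2 : x < 2 := by linarith
  have y1 : -y < 2 := by linarith
  have y2 : y < 2 := by linarith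
  have z1 : -z < 2 := by linarith
  have z2 : z < 2 := by linarith
  have k0 := mul_lt_mul_of_pos_left h0 hQ
  have k1 := mul_lt_mul_of_pos_left h1 hQ
  have k2 := mul_lt_mul_of_pos_left h2 hQ
  have k3 := mul_lt_mul_of_pos_left h3 hQ
  rcases h with (h | h | h) | (h | h | h) | (h | h | h) | (h | h | h) <;> linarith

/-- The coordinates of a point of `2 K_Q` are at most `2`. -/
theorem inK_bounds {Q p q r : ℝ} (hQ : 0 < Q) (h : InK Q (2 * Q + 2) p q r) :
    (-2 ≤ p ∧ p ≤ 2) ∧ (-2 ≤ q ∧ q ≤ 2) ∧ (-2 ≤ r ∧ r ≤ 2) := by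
  obtain ⟨⟨a1, a2, a3⟩, ⟨b1, b2, b3⟩, ⟨c1, c2, c3⟩, ⟨d1, d2, d3⟩⟩ := h
  have hQ1 : 0 < Q + 1 := by linarith
  have key : ∀ t : ℝ, (Q + 1) * t ≤ (Q + 1) * 2 → t ≤ 2 := fun t ht => le_of_mul_le_mul_left ht hQ1
  refine ⟨⟨?_, ?_⟩, ⟨?_, ?_⟩, ⟨?_, ?_⟩⟩
  · have := key (-p) (by nlinarith)
    linarith
  · exact key p (by nlinarith)
  · have := key (-q) (by nlinarith)
    linarith
  · exact key q (by nlinarith)
  · have := key (-r) (by nlinarith)
    linarith
  · exact key r (by nlinarith)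

/-- The facet forms of a point of `2 K_Q` are at most `2 + 4/Q`. -/
theorem inK_forms {Q p q r : ℝ} (hQ : 4000 ≤ Q) (h : InK Q (2 * Q + 2) p q r) :
    -p - q - r ≤ 2 + 1/1000 ∧ -p + q + r ≤ 2 + 1/1000 ∧ p - q + r ≤ 2 + 1/1000 ∧
      p + q - r ≤ 2 + 1/1000 := by
  have hQ0 : 0 < Q := by linarith
  obtain ⟨⟨p1, p2⟩, ⟨q1, q2⟩, ⟨r1, r2⟩⟩ := inK_bounds hQ0 h
  obtain ⟨⟨a1, a2, a3⟩, ⟨b1, b2, b3⟩, ⟨c1, c2, c3⟩, ⟨d1, d2, d3⟩⟩ := h
  have key : ∀ t : ℝ, Q * t ≤ Q * 2 + 4 → t ≤ 2 + 1/1000 := by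
    intro t ht
    have : Q * t ≤ Q * (2 + 1/1000) := by linarith
    exact le_of_mul_le_mul_left this hQ0
  exact ⟨key _ (by linarith), key _ (by linarith), key _ (by linarith), key _ (by linarith)⟩

/-- A point outside `2 K_Q` which can only be cut off by the facet `(-1,-1,-1)`. -/
theorem facet0 {Q x y z g : ℝ} (hQ : 4 ≤ Q) (h : OutTK Q x y z)
    (hx : -2 ≤ x) (hx' : x ≤ 2) (hy : -2 ≤ y) (hy' : y ≤ 2) (hz : -2 ≤ z) (hz' : z ≤ 2)
    (h1 : -x + y + z ≤ 1) (h2 : x - y + z ≤ 1) (h3 : x + y - z ≤ 1)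
    (gx : -x ≤ g) (gy : -y ≤ g) (gz : -z ≤ g) : 2 * Q + (2 - g) ≤ Q * (-x - y - z) := by
  have hQ0 : 0 < Q := by linarith
  have k1 := mul_le_mul_of_nonneg_left h1 hQ0.le
  have k2 := mul_le_mul_of_nonneg_left h2 hQ0.le
  have k3 := mul_le_mul_of_nonneg_left h3 hQ0.le
  rcases h with (h | h | h) | (h | h | h) | (h | h | h) | (h | h | h) <;> linarith

theorem facet1 {Q x y z g : ℝ} (hQ : 4 ≤ Q) (h : OutTK Q x y z)
    (hx : -2 ≤ x) (hx' : x ≤ 2) (hy : -2 ≤ y) (hy' : y ≤ 2) (hz : -2 ≤ z) (hz' : z ≤ 2)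
    (h0 : -x - y - z ≤ 1) (h2 : x - y + z ≤ 1) (h3 : x + y - z ≤ 1)
    (gx : -x ≤ g) (gy : y ≤ g) (gz : z ≤ g) : 2 * Q + (2 - g) ≤ Q * (-x + y + z) := by
  have hQ0 : 0 < Q := by linarith
  have k0 := mul_le_mul_of_nonneg_left h0 hQ0.le
  have k2 := mul_le_mul_of_nonneg_left h2 hQ0.le
  have k3 := mul_le_mul_of_nonneg_left h3 hQ0.le
  rcases h with (h | h | h) | (h | h | h) | (h | h | h) | (h | h | h) <;> linarith

theorem facet2 {Q x y z g : ℝ} (hQ : 4 ≤ Q) (h : OutTK Q x y z)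
    (hx : -2 ≤ x) (hx' : x ≤ 2) (hy : -2 ≤ y) (hy' : y ≤ 2) (hz : -2 ≤ z) (hz' : z ≤ 2)
    (h0 : -x - y - z ≤ 1) (h1 : -x + y + z ≤ 1) (h3 : x + y - z ≤ 1)
    (gx : x ≤ g) (gy : -y ≤ g) (gz : z ≤ g) : 2 * Q + (2 - g) ≤ Q * (x - y + z) := by
  have hQ0 : 0 < Q := by linarith
  have k0 := mul_le_mul_of_nonneg_left h0 hQ0.le
  have k1 := mul_le_mul_of_nonneg_left h1 hQ0.le
  have k3 := mul_le_mul_of_nonneg_left h3 hQ0.le
  rcases h with (h | h | h) | (h | h | h) | (h | h | h) | (h | h | h) <;> linarith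

theorem facet3 {Q x y z g : ℝ} (hQ : 4 ≤ Q) (h : OutTK Q x y z)
    (hx : -2 ≤ x) (hx' : x ≤ 2) (hy : -2 ≤ y) (hy' : y ≤ 2) (hz : -2 ≤ z) (hz' : z ≤ 2)
    (h0 : -x - y - z ≤ 1) (h1 : -x + y + z ≤ 1) (h2 : x - y + z ≤ 1)
    (gx : x ≤ g) (gy : y ≤ g) (gz : -z ≤ g) : 2 * Q + (2 - g) ≤ Q * (x + y - z) := by
  have hQ0 : 0 < Q := by linarith
  have k0 := mul_le_mul_of_nonneg_left h0 hQ0.le
  have k1 := mul_le_mul_of_nonneg_left h1 hQ0.le
  have k2 := mul_le_mul_of_nonneg_left h2 hQ0.le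
  rcases h with (h | h | h) | (h | h | h) | (h | h | h) | (h | h | h) <;> linarith

/-- The location of the hole. -/
theorem locate {Q a b c x u y v z w p q r : ℝ} (hQ : 4000 ≤ Q) (h : Box a b c x u y v z w)
    (hin : InK Q (2 * Q + 2) p q r) (hn : 2 ≤ -p - q - r)
    (h011 : OutTK Q (p - u - w) (q + (2 + b) - v) (r - y + (2 + c)))
    (h110 : OutTK Q (p + (2 + a) - u) (q - x + (2 + b)) (r - z - y))
    (h101 : OutTK Q (p + (2 + a) - w) (q - x - v) (r - z + (2 + c)))
    (h1m0 : OutTK Q (p + (2 + a) + u) (q - x - (2 + b)) (r - z + y))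
    (h100 : OutTK Q (p + (2 + a)) (q - x) (r - z))
    (h010 : OutTK Q (p - u) (q + (2 + b)) (r - y))
    (h001 : OutTK Q (p - w) (q - v) (r + (2 + c)))
    (h111 : OutTK Q (p + (2 + a) - u - w) (q - x + (2 + b) - v) (r - z - y + (2 + c))) :
    (-(11210/10000) ≤ p ∧ p ≤ -(11150/10000)) ∧
      (-(8872/10000) ≤ q ∧ q ≤ -(8812/10000)) ∧
      (-(57/10000) ≤ r ∧ r ≤ 36/10000) := by
  have hQ0 : 0 < Q := by linarith
  obtain ⟨f0, f1, f2, f3⟩ := inK_forms hQ hin
  obtain ⟨⟨p1, p2⟩, ⟨q1, q2⟩, ⟨r1, r2⟩⟩ := inK_bounds hQ0 hin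
  obtain ⟨a1, a2, b1, b2, c1, c2, z1, z2, x1, x2, u1, u2, v1, v2, y1, y2, w1, w2⟩ := h
  have t011 := outT_of_outTK hQ0 h011
  have t110 := outT_of_outTK hQ0 h110
  have t101 := outT_of_outTK hQ0 h101
  have t1m0 := outT_of_outTK hQ0 h1m0
  have t100 := outT_of_outTK hQ0 h100
  have t010 := outT_of_outTK hQ0 h010
  have t001 := outT_of_outTK hQ0 h001
  have t111 := outT_of_outTK hQ0 h111
  have e011 : 2 ≤ -(p - u - w) + (q + (2 + b) - v) + (r - y + (2 + c)) := by
    rcases t011 with t | t | t | t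
    · exfalso; linarith
    · exact t
    · exfalso; linarith
    · exfalso; linarith
  have e110 : 2 ≤ (p + (2 + a) - u) + (q - x + (2 + b)) - (r - z - y) := by
    rcases t110 with t | t | t | t
    · exfalso; linarith
    · exfalso; linarith
    · exfalso; linarith
    · exact t
  have e101 : 2 ≤ (p + (2 + a) - w) - (q - x - v) + (r - z + (2 + c)) := by
    rcases t101 with t | t | t | t
    · exfalso; linarith
    · exfalso
      rcases t100 with s | s | s | s
      · linarith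
      · linarith
      · linarith
      · rcases t1m0 with s' | s' | s' | s' <;> linarith
    · exact t
    · exfalso; linarith
  have e100 : 2 ≤ (p + (2 + a)) - (q - x) + (r - z) := by
    rcases t100 with t | t | t | t
    · exfalso; linarith
    · exfalso; linarith
    · exact t
    · exfalso
      rcases t001 with s | s | s | s
      · linarith
      · rcases t111 with s' | s' | s' | s' <;> linarith
      · rcases t111 with s' | s' | s' | s' <;> linarith
      · linarith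
  have e010 : 2 ≤ -(p - u) + (q + (2 + b)) + (r - y) := by
    rcases t010 with t | t | t | t
    · exfalso; linarith
    · exact t
    · exfalso; linarith
    · exfalso
      rcases t111 with s' | s' | s' | s' <;> linarith
  refine ⟨⟨?_, ?_⟩, ⟨?_, ?_⟩, ⟨?_, ?_⟩⟩ <;> linarith

/-- The two inequalities which a hole of type `(-1,-1,-1)` near the optimum gives. -/
theorem hole_ineq {Q a b c x u y v z w p q r : ℝ} (hQ : 4000 ≤ Q) (h : Box a b c x u y v z w)
    (hin : InK Q (2 * Q + 2) p q r) (hn : 2 ≤ -p - q - r)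
    (hout : OutAll Q p q r (2 + a) (-x) (-z) (-u) (2 + b) (-y) (-w) (-v) (2 + c)) :
    17/5 ≤ Q * (a + 2 * b + c - x - v - z + w) ∧ 17/5 ≤ Q * (2 * a + 2 * b) := by
  have h000 : OutTK Q p q r := by
    have t := hout 0 0 0; push_cast at t; convert t using 1 <;> ring
  have h011 : OutTK Q (p - u - w) (q + (2 + b) - v) (r - y + (2 + c)) := by
    have t := hout 0 1 1; push_cast at t; convert t using 1 <;> ring
  have h110 : OutTK Q (p + (2 + a) - u) (q - x + (2 + b)) (r - z - y) := by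
    have t := hout 1 1 0; push_cast at t; convert t using 1 <;> ring
  have h101 : OutTK Q (p + (2 + a) - w) (q - x - v) (r - z + (2 + c)) := by
    have t := hout 1 0 1; push_cast at t; convert t using 1 <;> ring
  have h1m0 : OutTK Q (p + (2 + a) + u) (q - x - (2 + b)) (r - z + y) := by
    have t := hout 1 (-1) 0; push_cast at t; convert t using 1 <;> ring
  have h100 : OutTK Q (p + (2 + a)) (q - x) (r - z) := by
    have t := hout 1 0 0; push_cast at t; convert t using 1 <;> ring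
  have h010 : OutTK Q (p - u) (q + (2 + b)) (r - y) := by
    have t := hout 0 1 0; push_cast at t; convert t using 1 <;> ring
  have h001 : OutTK Q (p - w) (q - v) (r + (2 + c)) := by
    have t := hout 0 0 1; push_cast at t; convert t using 1 <;> ring
  have h111 : OutTK Q (p + (2 + a) - u - w) (q - x + (2 + b) - v) (r - z - y + (2 + c)) := by
    have t := hout 1 1 1; push_cast at t; convert t using 1 <;> ring
  obtain ⟨⟨p1, p2⟩, ⟨q1, q2⟩, ⟨r1, r2⟩⟩ := locate hQ h hin hn h011 h110 h101 h1m0 h100 h010 h001 h111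
  obtain ⟨a1, a2, b1, b2, c1, c2, z1, z2, x1, x2, u1, u2, v1, v2, y1, y2, w1, w2⟩ := h
  have hQ4 : 4 ≤ Q := by linarith
  have s0 := facet0 (g := 11210/10000) hQ4 h000 (by linarith) (by linarith) (by linarith)
    (by linarith) (by linarith) (by linarith) (by linarith) (by linarith) (by linarith)
    (by linarith) (by linarith) (by linarith)
  have s1 := facet2 (g := 11222/10000) hQ4 h100 (by linarith) (by linarith) (by linarith)
    (by linarith) (by linarith) (by linarith) (by linarith) (by linarith) (by linarith)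
    (by linarith) (by linarith) (by linarith)
  have s2 := facet3 (g := 8872/10000) hQ4 h110 (by linarith) (by linarith) (by linarith)
    (by linarith) (by linarith) (by linarith) (by linarith) (by linarith) (by linarith)
    (by linarith) (by linarith) (by linarith)
  have s3 := facet1 (g := 14484/10000) hQ4 h111 (by linarith) (by linarith) (by linarith)
    (by linarith) (by linarith) (by linarith) (by linarith) (by linarith) (by linarith)
    (by linarith) (by linarith) (by linarith)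
  have s4 := facet1 (g := 14468/10000) hQ4 h010 (by linarith) (by linarith) (by linarith)
    (by linarith) (by linarith) (by linarith) (by linarith) (by linarith) (by linarith)
    (by linarith) (by linarith) (by linarith)
  constructor <;> linarith

end Pool.Agent.Helper63.KBL
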